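import Pool.Agent.Lib.MP_629748_gt.MFinal
import Pool.Agent.Lib.MP_629748_gt.FourPoint

/-!
MP_629748_gt: topological and linear dimension of complete length CAT spaces agree.
-/

namespace Pool.Agent.Results.MP_629748_gt.TopDimLinDim

open MP629748

universe u

/-- For every complete length space which is `CAT(κ)` for some `κ` (in the sense of comparison of
geodesic triangles, points at distance `< ϖ_κ` being joined by geodesics, or in the sense of the
four-point condition), the topological dimension equals the linear dimension. -/
theorem result : ∀ (X : Type u) [MetricSpace X] [CompleteSpace X],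
    IsLengthSpace X → (∃ κ : ℝ, IsCAT κ X ∨ IsCATFourPoint κ X) → TopDim X = LinDim X := by
  rintro X _ _ hl ⟨κ, h | h⟩
  · exact MP629748.final hl ⟨κ, h⟩
  · exact MP629748.final hl ⟨κ, h.isCAT hl⟩

end Pool.Agent.Results.MP_629748_gt.TopDimLinDim
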